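import Pool.Agent.KDS.StmtsA

set_option autoImplicit false

namespace Pool.Agent.KDS.H18

open Polynomial NumberField H58Q Pool.Agent.SZT Pool.Agent.KDT

/-- coefficients of a quintic shift -/
theorem quintic_eq {K : Type} [Field K] (f : K[X]) (hm : f.Monic) (hd : f.natDegree = 5) :
    f = X ^ 5 + C (f.coeff 4) * X ^ 4 + C (f.coeff 3) * X ^ 3 + C (f.coeff 2) * X ^ 2 +
      C (f.coeff 1) * X + C (f.coeff 0) := by
  have h5 : f.coeff 5 = 1 := by rw [← hd]; exact hm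
  conv_lhs => rw [f.as_sum_range' 6 (by omega)]
  simp only [Finset.sum_range_succ, Finset.sum_range_zero, ← C_mul_X_pow_eq_monomial, h5]
  simp only [pow_zero, mul_one, pow_one, map_one, one_mul, zero_add]
  ring

theorem coeff_shift {K : Type} [Field K] (f : K[X]) (a : K) (hm : f.Monic)
    (hd : f.natDegree = 5) :
    (f.comp (X + C a)).coeff 4 = f.coeff 4 + 5 * a ∧
    (f.comp (X + C a)).coeff 3 = f.coeff 3 + 4 * a * f.coeff 4 + 10 * a ^ 2 ∧
    (f.comp (X + C a)).coeff 2 = f.coeff 2 + 3 * a * f.coeff 3 + 6 * a ^ 2 * f.coeff 4 +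
      10 * a ^ 3 ∧
    (f.comp (X + C a)).coeff 1 = f.coeff 1 + 2 * a * f.coeff 2 + 3 * a ^ 2 * f.coeff 3 +
      4 * a ^ 3 * f.coeff 4 + 5 * a ^ 4 ∧
    (f.comp (X + C a)).coeff 0 = f.coeff 0 + a * f.coeff 1 + a ^ 2 * f.coeff 2 +
      a ^ 3 * f.coeff 3 + a ^ 4 * f.coeff 4 + a ^ 5 := by
  have key : f.comp (X + C a) = X ^ 5 + C (f.coeff 4 + 5 * a) * X ^ 4 +
      C (f.coeff 3 + 4 * a * f.coeff 4 + 10 * a ^ 2) * X ^ 3 +
      C (f.coeff 2 + 3 * a * f.coeff 3 + 6 * a ^ 2 * f.coeff 4 + 10 * a ^ 3) * X ^ 2 +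
      C (f.coeff 1 + 2 * a * f.coeff 2 + 3 * a ^ 2 * f.coeff 3 + 4 * a ^ 3 * f.coeff 4 +
        5 * a ^ 4) * X +
      C (f.coeff 0 + a * f.coeff 1 + a ^ 2 * f.coeff 2 + a ^ 3 * f.coeff 3 +
        a ^ 4 * f.coeff 4 + a ^ 5) := by
    conv_lhs => rw [quintic_eq f hm hd]
    simp only [add_comp, mul_comp, pow_comp, X_comp, C_comp, map_add, map_mul, map_pow]
    have e5 : (C (5 : K) : K[X]) = 5 := map_ofNat C 5
    have e4 : (C (4 : K) : K[X]) = 4 := map_ofNat C 4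
    have e3 : (C (3 : K) : K[X]) = 3 := map_ofNat C 3
    have e2 : (C (2 : K) : K[X]) = 2 := map_ofNat C 2
    have e6 : (C (6 : K) : K[X]) = 6 := map_ofNat C 6
    have e10 : (C (10 : K) : K[X]) = 10 := map_ofNat C 10
    rw [e5, e4, e3, e2, e6, e10]
    ring
  rw [key]
  generalize f.coeff 4 + 5 * a = c4
  generalize f.coeff 3 + 4 * a * f.coeff 4 + 10 * a ^ 2 = c3
  generalize f.coeff 2 + 3 * a * f.coeff 3 + 6 * a ^ 2 * f.coeff 4 + 10 * a ^ 3 = c2
  generalize f.coeff 1 + 2 * a * f.coeff 2 + 3 * a ^ 2 * f.coeff 3 + 4 * a ^ 3 * f.coeff 4 +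
    5 * a ^ 4 = c1
  generalize f.coeff 0 + a * f.coeff 1 + a ^ 2 * f.coeff 2 + a ^ 3 * f.coeff 3 +
    a ^ 4 * f.coeff 4 + a ^ 5 = c0
  refine ⟨?_, ?_, ?_, ?_, ?_⟩ <;>
  simp [coeff_X, coeff_C, coeff_X_pow]

theorem she_quart {K : Type} [Field K] (f g : K[X]) (a : K) (u : Fin 4 → K)
    (h4 : g.coeff 4 = f.coeff 4 + 5 * a)
    (h3 : g.coeff 3 = f.coeff 3 + 4 * a * f.coeff 4 + 10 * a ^ 2)
    (h2 : g.coeff 2 = f.coeff 2 + 3 * a * f.coeff 3 + 6 * a ^ 2 * f.coeff 4 + 10 * a ^ 3)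
    (h1 : g.coeff 1 = f.coeff 1 + 2 * a * f.coeff 2 + 3 * a ^ 2 * f.coeff 3 +
      4 * a ^ 3 * f.coeff 4 + 5 * a ^ 4)
    (h0 : g.coeff 0 = f.coeff 0 + a * f.coeff 1 + a ^ 2 * f.coeff 2 +
      a ^ 3 * f.coeff 3 + a ^ 4 * f.coeff 4 + a ^ 5) :
    quart g (uni (shc f a) u) = quart f u := by
  unfold quart
  have e0 : uni (shc f a) u 0 = u 0 := rfl
  have e1 : uni (shc f a) u 1 = u 1 + (-2 * a) * u 0 := rfl
  have e2 : uni (shc f a) u 2 = u 2 + (-a) * u 1 + a ^ 2 * u 0 := rfl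
  have e3 : uni (shc f a) u 3 = u 3 + (-2 * a) * u 2 + a ^ 2 * u 1 +
    (-(4 * a ^ 3 + 2 * f.coeff 4 * a ^ 2 + f.coeff 3 * a)) * u 0 := rfl
  rw [e0, e1, e2, e3, h4, h3, h2, h1, h0]
  generalize f.coeff 4 = f4
  generalize f.coeff 3 = f3
  generalize f.coeff 2 = f2
  generalize f.coeff 1 = f1
  generalize f.coeff 0 = f0
  generalize u 0 = x
  generalize u 1 = y
  generalize u 2 = z
  generalize u 3 = t
  ring


section

variable {K : Type} [Field K] (f g : K[X]) (a : K) (u : Fin 4 → K)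
    (h4 : g.coeff 4 = f.coeff 4 + 5 * a)
    (h3 : g.coeff 3 = f.coeff 3 + 4 * a * f.coeff 4 + 10 * a ^ 2)
    (h2 : g.coeff 2 = f.coeff 2 + 3 * a * f.coeff 3 + 6 * a ^ 2 * f.coeff 4 + 10 * a ^ 3)
    (h1 : g.coeff 1 = f.coeff 1 + 2 * a * f.coeff 2 + 3 * a ^ 2 * f.coeff 3 +
      4 * a ^ 3 * f.coeff 4 + 5 * a ^ 4)
    (h0 : g.coeff 0 = f.coeff 0 + a * f.coeff 1 + a ^ 2 * f.coeff 2 +
      a ^ 3 * f.coeff 3 + a ^ 4 * f.coeff 4 + a ^ 5)

include h4 h3 h2 h1 h0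

theorem she0 : dup0 g (uni (shc f a) u) = dup0 f u + 4 * a * quart f u := by
  unfold quart dup0
  have e0 : uni (shc f a) u 0 = u 0 := rfl
  have e1 : uni (shc f a) u 1 = u 1 + (-2 * a) * u 0 := rfl
  have e2 : uni (shc f a) u 2 = u 2 + (-a) * u 1 + a ^ 2 * u 0 := rfl
  have e3 : uni (shc f a) u 3 = u 3 + (-2 * a) * u 2 + a ^ 2 * u 1 +
    (-(4 * a ^ 3 + 2 * f.coeff 4 * a ^ 2 + f.coeff 3 * a)) * u 0 := rfl
  rw [e0, e1, e2, e3, h4, h3, h2, h1, h0]
  generalize f.coeff 4 = f4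
  generalize f.coeff 3 = f3
  generalize f.coeff 2 = f2
  generalize f.coeff 1 = f1
  generalize f.coeff 0 = f0
  generalize u 0 = x
  generalize u 1 = y
  generalize u 2 = z
  generalize u 3 = t
  ring

theorem she1 : dup1 g (uni (shc f a) u) = dup1 f u + (-2 * a) * dup0 f u -
    (8 * f.coeff 4 * a + 24 * a ^ 2) * quart f u := by
  unfold quart dup0 dup1
  have e0 : uni (shc f a) u 0 = u 0 := rfl
  have e1 : uni (shc f a) u 1 = u 1 + (-2 * a) * u 0 := rfl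
  have e2 : uni (shc f a) u 2 = u 2 + (-a) * u 1 + a ^ 2 * u 0 := rfl
  have e3 : uni (shc f a) u 3 = u 3 + (-2 * a) * u 2 + a ^ 2 * u 1 +
    (-(4 * a ^ 3 + 2 * f.coeff 4 * a ^ 2 + f.coeff 3 * a)) * u 0 := rfl
  rw [e0, e1, e2, e3, h4, h3, h2, h1, h0]
  generalize f.coeff 4 = f4
  generalize f.coeff 3 = f3
  generalize f.coeff 2 = f2
  generalize f.coeff 1 = f1
  generalize f.coeff 0 = f0
  generalize u 0 = x
  generalize u 1 = y
  generalize u 2 = z
  generalize u 3 = t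
  ring

theorem she2 : dup2 g (uni (shc f a) u) = dup2 f u + (-a) * dup1 f u + a ^ 2 * dup0 f u +
    (4 * f.coeff 4 * a ^ 2 + 8 * a ^ 3) * quart f u := by
  unfold quart dup0 dup1 dup2
  have e0 : uni (shc f a) u 0 = u 0 := rfl
  have e1 : uni (shc f a) u 1 = u 1 + (-2 * a) * u 0 := rfl
  have e2 : uni (shc f a) u 2 = u 2 + (-a) * u 1 + a ^ 2 * u 0 := rfl
  have e3 : uni (shc f a) u 3 = u 3 + (-2 * a) * u 2 + a ^ 2 * u 1 +
    (-(4 * a ^ 3 + 2 * f.coeff 4 * a ^ 2 + f.coeff 3 * a)) * u 0 := rfl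
  rw [e0, e1, e2, e3, h4, h3, h2, h1, h0]
  generalize f.coeff 4 = f4
  generalize f.coeff 3 = f3
  generalize f.coeff 2 = f2
  generalize f.coeff 1 = f1
  generalize f.coeff 0 = f0
  generalize u 0 = x
  generalize u 1 = y
  generalize u 2 = z
  generalize u 3 = t
  ring

theorem she3 : dup3 g (uni (shc f a) u) = dup3 f u + (-2 * a) * dup2 f u + a ^ 2 * dup1 f u +
    (-(4 * a ^ 3 + 2 * f.coeff 4 * a ^ 2 + f.coeff 3 * a)) * dup0 f u -
    (2 * f.coeff 3 * a ^ 2 + 8 * f.coeff 4 * a ^ 3 + 14 * a ^ 4) * quart f u := by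
  unfold quart dup0 dup1 dup2 dup3
  have e0 : uni (shc f a) u 0 = u 0 := rfl
  have e1 : uni (shc f a) u 1 = u 1 + (-2 * a) * u 0 := rfl
  have e2 : uni (shc f a) u 2 = u 2 + (-a) * u 1 + a ^ 2 * u 0 := rfl
  have e3 : uni (shc f a) u 3 = u 3 + (-2 * a) * u 2 + a ^ 2 * u 1 +
    (-(4 * a ^ 3 + 2 * f.coeff 4 * a ^ 2 + f.coeff 3 * a)) * u 0 := rfl
  rw [e0, e1, e2, e3, h4, h3, h2, h1, h0]
  generalize f.coeff 4 = f4
  generalize f.coeff 3 = f3
  generalize f.coeff 2 = f2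
  generalize f.coeff 1 = f1
  generalize f.coeff 0 = f0
  generalize u 0 = x
  generalize u 1 = y
  generalize u 2 = z
  generalize u 3 = t
  ring

end

theorem she : SheStatement := by
  intro K _ f a hm hd
  obtain ⟨h4, h3, h2, h1, h0⟩ := coeff_shift f a hm hd
  refine ⟨hm.comp (monic_X_add_C a) (by rw [natDegree_X_add_C]; exact one_ne_zero), ?_, ?_, ?_,
    ?_⟩
  · rw [natDegree_comp, natDegree_X_add_C, hd]
  · intro A B hA hAd hB
    have hA2 : A.coeff 2 = 1 := by rw [← hAd]; exact hA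
    have hAe : A = X ^ 2 + C (A.coeff 1) * X + C (A.coeff 0) := by
      conv_lhs => rw [A.as_sum_range' 3 (by omega)]
      simp only [Finset.sum_range_succ, Finset.sum_range_zero, ← C_mul_X_pow_eq_monomial, hA2]
      simp only [pow_zero, mul_one, pow_one, map_one, one_mul, zero_add]
      ring
    have hBd : B.natDegree < 2 := by
      rw [← hAd]
      rcases eq_or_ne B 0 with h | h
      · rw [h, natDegree_zero, hAd]; norm_num
      · exact natDegree_lt_natDegree h hB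
    have hBe : B = C (B.coeff 1) * X + C (B.coeff 0) := by
      conv_lhs => rw [B.as_sum_range' 2 hBd]
      simp only [Finset.sum_range_succ, Finset.sum_range_zero, ← C_mul_X_pow_eq_monomial]
      simp only [pow_zero, mul_one, pow_one, zero_add]
      ring
    have a1 : (A.comp (X + C a)).coeff 1 = A.coeff 1 + 2 * a := by
      conv_lhs => rw [hAe]
      have : (X ^ 2 + C (A.coeff 1) * X + C (A.coeff 0) : K[X]).comp (X + C a) =
          X ^ 2 + C (A.coeff 1 + 2 * a) * X + C (a ^ 2 + A.coeff 1 * a + A.coeff 0) := by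
        have e2 : (C (2 : K) : K[X]) = 2 := map_ofNat C 2
        simp only [add_comp, mul_comp, pow_comp, X_comp, C_comp, map_add, map_mul, map_pow]
        rw [e2]
        ring
      rw [this]
      generalize A.coeff 1 + 2 * a = c1
      generalize a ^ 2 + A.coeff 1 * a + A.coeff 0 = c0
      simp [coeff_X, coeff_C, coeff_X_pow]
    have a0 : (A.comp (X + C a)).coeff 0 = a ^ 2 + A.coeff 1 * a + A.coeff 0 := by
      conv_lhs => rw [hAe]
      have : (X ^ 2 + C (A.coeff 1) * X + C (A.coeff 0) : K[X]).comp (X + C a) =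
          X ^ 2 + C (A.coeff 1 + 2 * a) * X + C (a ^ 2 + A.coeff 1 * a + A.coeff 0) := by
        have e2 : (C (2 : K) : K[X]) = 2 := map_ofNat C 2
        simp only [add_comp, mul_comp, pow_comp, X_comp, C_comp, map_add, map_mul, map_pow]
        rw [e2]
        ring
      rw [this]
      generalize A.coeff 1 + 2 * a = c1
      generalize a ^ 2 + A.coeff 1 * a + A.coeff 0 = c0
      simp [coeff_X, coeff_C, coeff_X_pow]
    have b1 : (B.comp (X + C a)).coeff 1 = B.coeff 1 := by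
      conv_lhs => rw [hBe]
      have : (C (B.coeff 1) * X + C (B.coeff 0) : K[X]).comp (X + C a) =
          C (B.coeff 1) * X + C (B.coeff 1 * a + B.coeff 0) := by
        simp only [add_comp, mul_comp, X_comp, C_comp, map_add, map_mul]
        ring
      rw [this]
      generalize B.coeff 1 * a + B.coeff 0 = c0
      simp [coeff_X, coeff_C]
    funext l
    fin_cases l
    · rfl
    · change -(A.comp (X + C a)).coeff 1 = -A.coeff 1 + (-2 * a) * 1
      rw [a1]; ring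
    · change (A.comp (X + C a)).coeff 0 = A.coeff 0 + (-a) * (-A.coeff 1) + a ^ 2 * 1
      rw [a0]; ring
    · change ((B.comp (X + C a)).coeff 1) ^ 2 - (-(A.comp (X + C a)).coeff 1) ^ 3 +
        (-(A.comp (X + C a)).coeff 1) * (A.comp (X + C a)).coeff 0 -
        (f.comp (X + C a)).coeff 4 * (-(A.comp (X + C a)).coeff 1) ^ 2 -
        (f.comp (X + C a)).coeff 3 * (-(A.comp (X + C a)).coeff 1) -
        (f.comp (X + C a)).coeff 2 =
        ((B.coeff 1) ^ 2 - (-A.coeff 1) ^ 3 + (-A.coeff 1) * A.coeff 0 -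
          f.coeff 4 * (-A.coeff 1) ^ 2 - f.coeff 3 * (-A.coeff 1) - f.coeff 2) +
        (-2 * a) * A.coeff 0 + a ^ 2 * (-A.coeff 1) +
        (-(4 * a ^ 3 + 2 * f.coeff 4 * a ^ 2 + f.coeff 3 * a)) * 1
      rw [b1, a1, a0, h4, h3, h2]
      ring
  · intro u
    exact she_quart f _ a u h4 h3 h2 h1 h0
  · intro u hu
    funext l
    fin_cases l
    · change dup0 (f.comp (X + C a)) (uni (shc f a) u) = dup0 f u
      rw [she0 f _ a u h4 h3 h2 h1 h0, hu]; ring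
    · change dup1 (f.comp (X + C a)) (uni (shc f a) u) = dup1 f u + (-2 * a) * dup0 f u
      rw [she1 f _ a u h4 h3 h2 h1 h0, hu]; ring
    · change dup2 (f.comp (X + C a)) (uni (shc f a) u) =
        dup2 f u + (-a) * dup1 f u + a ^ 2 * dup0 f u
      rw [she2 f _ a u h4 h3 h2 h1 h0, hu]; ring
    · change dup3 (f.comp (X + C a)) (uni (shc f a) u) = dup3 f u + (-2 * a) * dup2 f u +
        a ^ 2 * dup1 f u + (-(4 * a ^ 3 + 2 * f.coeff 4 * a ^ 2 + f.coeff 3 * a)) * dup0 f u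
      rw [she3 f _ a u h4 h3 h2 h1 h0, hu]; ring

end Pool.Agent.KDS.H18
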