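import Pool.Agent.Helper18_KDT.Base
import Pool.Agent.Helper38_KDS.CLF
import Pool.Agent.Helper25_KDS.CLM
import Pool.Agent.Helper49_KDS.CNS
import Pool.Agent.Helper47_KDS.DIV
import Pool.Agent.Helper21_KDS.DPA
import Pool.Agent.Helper77_KDS.DPB
import Pool.Agent.Helper81_KDS.DTS
import Pool.Agent.Helper5_KDS.DVB
import Pool.Agent.Helper76_KDS.EXC
import Pool.Agent.Helper91_KDS.GEN
import Pool.Agent.Helper39_KDS.GLF
import Pool.Agent.Helper81_KDS.GLI
import Pool.Agent.Helper26_KDS.GLN
import Pool.Agent.Helper8_KDS.GLS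
import Pool.Agent.Helper16_KDS.HLF
import Pool.Agent.Helper3_KDS.INS
import Pool.Agent.Helper71_KDS.KSF
import Pool.Agent.Helper92_KDS.MVP
import Pool.Agent.Helper41_KDS.NDT
import Pool.Agent.Helper94_KDS.PNB
import Pool.Agent.Helper64_KDS.RDP
import Pool.Agent.Helper10_KDS.RED
import Pool.Agent.Helper67_KDS.RNA
import Pool.Agent.Helper81_KDS.RPQ
import Pool.Agent.Helper47_KDS.TKU
import Pool.Agent.Helper44_KDS.UNT

set_option autoImplicit false

/-!
# Squad KDS (MP_160b6c_nt): base assembly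
-/

namespace Pool.Agent.KDS.H18

open Pool.Agent.SZT Pool.Agent.KDT Pool.Agent.KDT.H18

section

variable (qtd : QtdStatement) (she : SheStatement)

theorem s_unt : UntStatement := KDS.H44.unt
theorem s_dpa : DpaStatement := KDS.H21.dpa
theorem s_dpb : DpbStatement := KDS.H77.dpb s_dpa a_mii a_unq KDT.H37.ziml
theorem s_dvb : DvbStatement := KDS.H5.dvb a_mik
theorem s_red : RedStatement := KDS.H10.red
theorem s_rna : RnaStatement := KDS.H67.rna s_red
theorem s_rdp : RdpStatement := KDS.H64.rdp s_rna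
theorem s_rpq : RpqStatement := KDS.H81.rpq s_rna s_rdp
theorem s_dts : DtsStatement := KDS.H81.dts
theorem s_ndt : NdtStatement := KDS.H41.ndt s_rpq s_dts
theorem s_cns : CnsStatement := KDS.H49.cns
theorem s_mvp : MvpStatement := KDS.H92.mvp
theorem s_clm : ClmStatement := KDS.H25.clm
theorem s_tku : TkuStatement := KDS.H47.tku
theorem s_clf : ClfStatement := KDS.H38.clf s_clm
theorem s_div : DivStatement := KDS.H47.div a_rex a_ded
theorem s_hlf : HlfStatement := KDS.H16.hlf s_dpb a_mii a_mik a_unq a_pro a_bdk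
theorem s_gen : GenStatement := KDS.H91.gen k_kqu
include qtd in
theorem s_ins : InsStatement := KDS.H3.ins s_clm qtd s_tku s_clf s_div s_hlf s_gen s_dpb k_trl
  k_kqu a_mii
theorem s_pnb : PnbStatement := KDS.H94.pnb k_lfb k_mbn k_gmp b_nod b_cpl b_roo b_sqr b_kap
  b_rat b_nsz

theorem s_glf : GlfStatement := KDS.H39.glf k_plf s_unt k_dtb

theorem s_gli : GliStatement := KDS.H81.gli k_pli s_unt k_dtb
include she in
theorem s_gln : GlnStatement := KDS.H26.gln s_pnb s_ndt s_unt she s_dpb s_dvb k_kqu k_pln k_dtb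
include she in
theorem s_gls : GlsStatement := KDS.H8.gls s_glf s_gli (s_gln she) a_pfs a_qvn
  a_dsh
theorem s_exc : ExcStatement := KDS.H76.exc k_vgc a_unq

end

end Pool.Agent.KDS.H18
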