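import Pool.Agent.Helper18_KDS.Final0
import Pool.Agent.Helper18_KDS.SHE
import Pool.Agent.Helper60_KDS.QTD

set_option autoImplicit false

/-!
# Squad KDS (MP_160b6c_nt): the theorem
-/

namespace Pool.Agent.KDS.H18

theorem final : KdsStatement := final0 KDS.H60.qtd she

end Pool.Agent.KDS.H18
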