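import Pool.Agent.Helper18_KDS.Base
import Pool.Agent.Helper71_KDS.KSF

set_option autoImplicit false

/-!
# Squad KDS (MP_160b6c_nt): the assembly
-/

namespace Pool.Agent.KDS.H18

open Pool.Agent.SZT Pool.Agent.KDT Pool.Agent.KDT.H18

theorem final0 (qtd : QtdStatement) (she : SheStatement) : KdsStatement :=
  KDS.H71.ksf (s_gls she) s_cns s_mvp (s_ins qtd) s_exc s_dpb k_lmn zero a_pel a_rex a_dsh a_qvn
    a_gpr a_ded

end Pool.Agent.KDS.H18
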