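import Pool.Agent.KDS.StmtsB

set_option autoImplicit false

/-!
# Squad KDS (MP_160b6c_nt), row QTD: the quadrics and the tropes of the double
-/

namespace Pool.Agent.KDS.H18

open Polynomial NumberField H58Q Pool.Agent.SZT Pool.Agent.KDT

theorem qtd_id {K : Type} [Field K] (f : K[X]) (a b : K) (u : Fin 4 → K)
    (h1 : f.coeff 1 = -(a ^ 4 + a ^ 3 * b + a ^ 2 * b ^ 2 + a * b ^ 3 + b ^ 4) -
      f.coeff 4 * (a ^ 3 + a ^ 2 * b + a * b ^ 2 + b ^ 3) -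
      f.coeff 3 * (a ^ 2 + a * b + b ^ 2) - f.coeff 2 * (a + b))
    (h0 : f.coeff 0 = -a ^ 5 - f.coeff 4 * a ^ 4 - f.coeff 3 * a ^ 3 - f.coeff 2 * a ^ 2 -
      f.coeff 1 * a) :
    (QQ f a b u) ^ 2 = (a - b) ^ 2 * (tau f a b (dup f u) +
      2 * ((a + b) * f.coeff 2 + (a ^ 2 + 3 * a * b + b ^ 2) * f.coeff 3 +
        (a ^ 3 + 3 * a ^ 2 * b + 3 * a * b ^ 2 + b ^ 3) * f.coeff 4 +
        (a ^ 4 + 3 * a ^ 3 * b + 5 * a ^ 2 * b ^ 2 + 3 * a * b ^ 3 + b ^ 4)) * quart f u) := by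
  have eQ : QQ f a b u =
      u 3 * (a ^ 2 * (MT f b u 0) - a * (MT f b u 1) + (MT f b u 2)) -
      u 0 * (mB f a * (MT f b u 1) - mA f a * (MT f b u 2) + a ^ 2 * (MT f b u 3)) +
      u 1 * (mB f a * (MT f b u 0) - a ^ 2 * (MT f b u 2) + a * (MT f b u 3)) -
      u 2 * (mA f a * (MT f b u 0) - a ^ 2 * (MT f b u 1) + (MT f b u 3)) := rfl
  have e0 : MT f b u 0 = b ^ 2 * u 0 - b * u 1 + u 2 := rfl
  have e1 : MT f b u 1 = mA f b * u 0 - b ^ 2 * u 1 + u 3 := rfl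
  have e2 : MT f b u 2 = mB f b * u 0 - b ^ 2 * u 2 + b * u 3 := rfl
  have e3 : MT f b u 3 = mB f b * u 1 - mA f b * u 2 + b ^ 2 * u 3 := rfl
  have et : tau f a b (dup f u) = dup3 f u - (a + b) * dup2 f u + a * b * dup1 f u +
    GG f a b * dup0 f u := rfl
  rw [et, eQ, e0, e1, e2, e3]
  unfold mA mB GG quart dup0 dup1 dup2 dup3
  rw [h0, h1]
  generalize f.coeff 4 = f4
  generalize f.coeff 3 = f3
  generalize f.coeff 2 = f2
  generalize u 0 = x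
  generalize u 1 = y
  generalize u 2 = z
  generalize u 3 = t
  ring

theorem qtd : QtdStatement := by
  intro K _ f a b u hm hd ha hb hab hu
  have h5 : f.coeff 5 = 1 := by rw [← hd]; exact hm
  have ev : ∀ c : K, f.eval c = c ^ 5 + f.coeff 4 * c ^ 4 + f.coeff 3 * c ^ 3 +
      f.coeff 2 * c ^ 2 + f.coeff 1 * c + f.coeff 0 := by
    intro c
    rw [eval_eq_sum_range' (n := 6) (by omega)]
    simp only [Finset.sum_range_succ, Finset.sum_range_zero, h5]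
    ring
  have ea : f.eval a = 0 := ha
  have eb : f.eval b = 0 := hb
  rw [ev] at ea eb
  have hab' : a - b ≠ 0 := sub_ne_zero.2 hab
  have h1 : f.coeff 1 = -(a ^ 4 + a ^ 3 * b + a ^ 2 * b ^ 2 + a * b ^ 3 + b ^ 4) -
      f.coeff 4 * (a ^ 3 + a ^ 2 * b + a * b ^ 2 + b ^ 3) -
      f.coeff 3 * (a ^ 2 + a * b + b ^ 2) - f.coeff 2 * (a + b) := by
    apply mul_left_cancel₀ hab'
    linear_combination ea - eb
  have h0 : f.coeff 0 = -a ^ 5 - f.coeff 4 * a ^ 4 - f.coeff 3 * a ^ 3 - f.coeff 2 * a ^ 2 -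
      f.coeff 1 * a := by
    linear_combination ea
  rw [qtd_id f a b u h1 h0, hu, mul_zero, add_zero]

end Pool.Agent.KDS.H18
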